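import Pool.Agent.Helper96.CT.Stmts3

/-! # CT, row NH: no copy of the tree in the hub graph -/

set_option autoImplicit false

namespace Pool.Agent.Helper11.CT

open SimpleGraph Pool.Agent.Helper96.CT

theorem nh_const {W : Type} (G : SimpleGraph W) (g : W → ℕ) (h : ∀ u v, G.Adj u v → g u = g v)
    {u v : W} (p : G.Walk u v) : g u = g v := by
  induction p with
  | nil => rfl
  | cons e _ ih => exact (h _ _ e).trans ih

/-- row NH -/
theorem st_NH : ST_NH := by
  classical
  intro W V _ _ T F a h c hB hH hcon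
  obtain ⟨f⟩ := hcon
  obtain ⟨x, hx⟩ : ∃ x : W, ∀ w, w ≠ x → f w ≠ h := by
    by_cases hh : ∃ x, f x = h
    · obtain ⟨x, hx⟩ := hh
      exact ⟨x, fun w hw e => hw (f.injective (e.trans hx.symm))⟩
    · push Not at hh
      exact ⟨Classical.arbitrary W, fun w _ => hh w⟩
  obtain ⟨B, hxB, hBc, hBa⟩ := hB x
  have hne : ∀ w ∈ B, f w ≠ h := fun w hw => hx w fun e => hxB (e ▸ hw)
  obtain ⟨w0, hw0⟩ : B.Nonempty := Finset.card_pos.mp (by omega)
  have hc : ∀ w ∈ B, c (f w) = c (f w0) := by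
    intro w hw
    obtain ⟨p⟩ := hBc.preconnected ⟨w, hw⟩ ⟨w0, hw0⟩
    exact nh_const (T.induce (B : Set W)) (fun y => c (f y.1)) (fun u v e =>
      hH.2 _ _ (f.toHom.map_adj e) (hne _ u.2) (hne _ v.2)) p
  have h1 := hH.1 (c (f w0)) (B.image f) (by
    intro y hy
    obtain ⟨w, hw, rfl⟩ := Finset.mem_image.mp hy
    exact ⟨hne w hw, hc w hw⟩)
  have h2 : (B.image f).card = B.card := Finset.card_image_of_injective B f.injective
  rw [h2] at h1
  omega

end Pool.Agent.Helper11.CT
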